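import Mathlib

namespace Pool.Agent.Results.MP_60e8bf_an.IrregularOrbits

open Set Filter Topology

/-- Lower density `liminf #(A ∩ [0,N]) / (N+1)`. -/
noncomputable def lowerDens (A : Set ℕ) : ℝ :=
  liminf (fun N : ℕ => ((A ∩ Icc 0 N).ncard : ℝ) / (N + 1)) atTop

/-- Upper density `limsup #(A ∩ [0,N]) / (N+1)`. -/
noncomputable def upperDens (A : Set ℕ) : ℝ :=
  limsup (fun N : ℕ => ((A ∩ Icc 0 N).ncard : ℝ) / (N + 1)) atTop

section Defs
variable {K X : Type*} [NontriviallyNormedField K] [NormedAddCommGroup X] [NormedSpace K X]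

/-- The set `N_T(x, U)` of visiting times. -/
def visits (T : X →L[K] X) (x : X) (U : Set X) : Set ℕ := {n | (T ^ n) x ∈ U}

/-- `x` is a frequently hypercyclic vector for `T`. -/
def FreqHC (T : X →L[K] X) (x : X) : Prop :=
  ∀ U : Set X, IsOpen U → U.Nonempty → 0 < lowerDens (visits T x U)

/-- The orbit of `x` is irregularly visiting. -/
def Irregular (T : X →L[K] X) (x : X) : Prop :=
  ∃ U : Set X, IsOpen U ∧ U.Nonempty ∧ lowerDens (visits T x U) < upperDens (visits T x U)

end Defs

theorem ncard_Icc (a b : ℕ) : (Icc a b).ncard = b + 1 - a := by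
  rw [← Finset.coe_Icc, ncard_coe_finset]; simp

theorem frac_le (B : Set ℕ) (N : ℕ) : ((B ∩ Icc 0 N).ncard : ℝ) / (N + 1) ≤ 1 := by
  rw [div_le_one (by positivity)]
  have : (B ∩ Icc 0 N).ncard ≤ (Icc 0 N).ncard :=
    ncard_le_ncard inter_subset_right (finite_Icc _ _)
  rw [ncard_Icc] at this
  exact_mod_cast this

theorem sep_card {S : Set ℕ} {L : ℕ} (hL : 0 < L)
    (hS : ∀ m ∈ S, ∀ j, 1 ≤ j → j < L → m + j ∉ S) (N : ℕ) :
    (S ∩ Icc 0 N).ncard ≤ N / L + 1 := by
  have h := ncard_le_ncard_of_injOn (s := S ∩ Icc 0 N) (t := Icc 0 (N / L)) (fun m => m / L)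
    (fun m hm => ⟨Nat.zero_le _, Nat.div_le_div_right hm.2.2⟩) ?_ (finite_Icc _ _)
  · rw [ncard_Icc] at h
    simpa using h
  · have key : ∀ a ∈ S, ∀ b ∈ S, a < b → a / L ≠ b / L := by
      intro a ha b hb hab h
      have h1 := Nat.div_add_mod a L
      have h2 := Nat.div_add_mod b L
      have h3 := Nat.mod_lt b hL
      rw [← h] at h2
      have : a + (b - a) ∈ S := by rwa [Nat.add_sub_cancel' hab.le]
      exact hS a ha (b - a) (by omega) (by omega) this
    intro a ha b hb h
    rcases lt_trichotomy a b with hab | hab | hab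
    · exact absurd h (key a ha.1 b hb.1 hab)
    · exact hab
    · exact absurd h.symm (key b hb.1 a ha.1 hab)

theorem ncard_biUnion_le (S : ℕ → Set ℕ) (L : ℕ) :
    (⋃ n ∈ Finset.range L, S n).ncard ≤ ∑ n ∈ Finset.range L, (S n).ncard := by
  induction L with
  | zero => simp
  | succ L ih =>
    rw [Finset.range_add_one, Finset.set_biUnion_insert, Finset.sum_insert (by simp)]
    exact (ncard_union_le _ _).trans (by omega)

theorem geo (N : ℝ) (hN : 0 ≤ N) (L : ℕ) :
    ∑ n ∈ Finset.range L, (N / 2 ^ (n + 3) + 1) ≤ N / 4 + L := by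
  have : ∑ n ∈ Finset.range L, (N / 2 ^ (n + 3) + 1) = N / 4 - N / 2 ^ (L + 2) + L := by
    induction L with
    | zero => norm_num
    | succ L ih =>
      rw [Finset.sum_range_succ, ih]
      push_cast
      field_simp
      ring
  rw [this]
  have : 0 ≤ N / 2 ^ (L + 2) := by positivity
  linarith

/-- General statement: an injective orbit of a continuous map is irregularly visiting. -/
theorem general {X : Type*} [TopologicalSpace X] [T2Space X] (f : X → X) (hf : Continuous f)
    (x : X) (hx : Function.Injective fun n => f^[n] x) :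
    ∃ U : Set X, IsOpen U ∧ U.Nonempty ∧
      lowerDens {n | f^[n] x ∈ U} < upperDens {n | f^[n] x ∈ U} := by
  have hV : ∀ n : ℕ, ∃ V : Set X, IsOpen V ∧ f^[n] x ∈ V ∧ (∀ m < n, f^[m] x ∉ V) ∧
      ∀ y ∈ V, ∀ j, 1 ≤ j → j < 2 ^ (n + 3) → f^[j] y ∉ V := by
    intro n
    have h1 : ∀ᶠ y in 𝓝 (f^[n] x), ∀ m ∈ Iio n, y ≠ f^[m] x := by
      rw [eventually_all_finite (finite_Iio n)]
      intro m hm
      exact isOpen_ne.mem_nhds (fun h => (ne_of_lt hm) (hx h).symm)
    have h2 : ∀ᶠ p in 𝓝 (f^[n] x, f^[n] x), ∀ j ∈ Ico 1 (2 ^ (n + 3)), f^[j] p.1 ≠ p.2 := by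
      rw [eventually_all_finite (finite_Ico _ _)]
      intro j hj
      have ho : IsOpen {p : X × X | f^[j] p.1 ≠ p.2} :=
        isOpen_ne_fun ((hf.iterate j).comp continuous_fst) continuous_snd
      refine ho.mem_nhds ?_
      intro h
      have h' : f^[j] (f^[n] x) = f^[n] x := h
      rw [← Function.iterate_add_apply] at h'
      have := hx h'
      have := hj.1
      omega
    rw [nhds_prod_eq, eventually_prod_self_iff'] at h2
    obtain ⟨W, hW, hW2⟩ := h2
    obtain ⟨V, hVs, hVo, hVm⟩ := mem_nhds_iff.1 (inter_mem h1 hW)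
    refine ⟨V, hVo, hVm, fun m hm h => (hVs h).1 m hm rfl, fun y hy j h1 h2 h => ?_⟩
    exact hW2 y (hVs hy).2 _ (hVs h).2 j ⟨h1, h2⟩ rfl
  choose V hVo hVm hVlt hVsep using hV
  let A : Set ℕ := {n | ∃ k, 16 ^ (2 * k) ≤ n ∧ n < 16 ^ (2 * k + 1)}
  refine ⟨⋃ n ∈ A, V n, isOpen_biUnion fun n _ => hVo n,
    ⟨f^[1] x, mem_biUnion (x := 1) ⟨0, by norm_num⟩ (hVm 1)⟩, ?_⟩
  set S : Set ℕ := {n | f^[n] x ∈ ⋃ n ∈ A, V n} with hS
  have hup : (15 / 16 : ℝ) ≤ upperDens S := by
    refine le_limsup_of_frequently_le ?_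
      (isBoundedUnder_of_eventually_le (a := 1) (Eventually.of_forall (frac_le S)))
    rw [frequently_atTop]
    intro k
    have hk : 2 * k + 1 < 16 ^ (2 * k + 1) := Nat.lt_pow_self (by norm_num)
    obtain ⟨N, hN⟩ : ∃ N, N + 1 = 16 ^ (2 * k + 1) := ⟨16 ^ (2 * k + 1) - 1, by omega⟩
    refine ⟨N, by omega, ?_⟩
    have hsub : Icc (16 ^ (2 * k)) N ⊆ S ∩ Icc 0 N := by
      intro n hn
      exact ⟨mem_biUnion (x := n) ⟨k, hn.1, by have := hn.2; omega⟩ (hVm n), Nat.zero_le _, hn.2⟩
    have h1 := ncard_le_ncard hsub ((finite_Icc _ _).inter_of_right _)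
    rw [ncard_Icc, hN, pow_succ] at h1
    have h2 : 15 * 16 ^ (2 * k) ≤ (S ∩ Icc 0 N).ncard := by omega
    have h3 : (N : ℝ) + 1 = 16 ^ (2 * k) * 16 := by
      rw [← pow_succ]; exact_mod_cast hN
    have h4 : (15 : ℝ) * 16 ^ (2 * k) ≤ (S ∩ Icc 0 N).ncard := by exact_mod_cast h2
    rw [le_div_iff₀ (by positivity), h3]
    linarith
  have hlow : lowerDens S ≤ 5 / 16 := by
    refine liminf_le_of_frequently_le ?_
      (isBoundedUnder_of_eventually_ge (a := 0) (Eventually.of_forall fun N => by positivity))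
    rw [frequently_atTop]
    intro k
    have hk : 2 * k + 2 < 16 ^ (2 * k + 2) := Nat.lt_pow_self (by norm_num)
    obtain ⟨N, hN⟩ : ∃ N, N + 1 = 16 ^ (2 * k + 2) := ⟨16 ^ (2 * k + 2) - 1, by omega⟩
    refine ⟨N, by omega, ?_⟩
    have hsub : S ∩ Icc 0 N ⊆
        ⋃ n ∈ Finset.range (16 ^ (2 * k + 1)), ({m | f^[m] x ∈ V n} ∩ Icc 0 N) := by
      rintro m ⟨hm, hmN⟩
      obtain ⟨n, ⟨l, hl1, hl2⟩, hn⟩ := mem_iUnion₂.1 hm
      have hnm : n ≤ m := by
        by_contra hc
        exact hVlt n m (by omega) hn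
      have hlk : l ≤ k := by
        by_contra hc
        have : 16 ^ (2 * k + 2) ≤ 16 ^ (2 * l) := Nat.pow_le_pow_right (by norm_num) (by omega)
        have := hmN.2
        omega
      have : 16 ^ (2 * l + 1) ≤ 16 ^ (2 * k + 1) := Nat.pow_le_pow_right (by norm_num) (by omega)
      exact mem_iUnion₂.2 ⟨n, Finset.mem_range.2 (by omega), hn, hmN⟩
    have h1 := (ncard_le_ncard hsub ((finite_Icc 0 N).subset (by
      intro m hm
      obtain ⟨n, -, hn⟩ := mem_iUnion₂.1 hm
      exact hn.2))).trans (ncard_biUnion_le _ _)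
    have h2 : ∀ n, ((({m | f^[m] x ∈ V n} ∩ Icc 0 N).ncard : ℕ) : ℝ) ≤ (N : ℝ) / 2 ^ (n + 3) + 1 := by
      intro n
      have := sep_card (S := {m | f^[m] x ∈ V n}) (L := 2 ^ (n + 3)) (by positivity) (by
        intro m hm j h1 h2 h
        have h' : f^[m + j] x ∈ V n := h
        rw [add_comm, Function.iterate_add_apply] at h'
        exact hVsep n _ hm j h1 h2 h') N
      have h3 : (((N / 2 ^ (n + 3) : ℕ)) : ℝ) ≤ (N : ℝ) / ((2 ^ (n + 3) : ℕ) : ℝ) :=
        Nat.cast_div_le
      have h4 : ((({m | f^[m] x ∈ V n} ∩ Icc 0 N).ncard : ℕ) : ℝ) ≤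
          ((N / 2 ^ (n + 3) + 1 : ℕ) : ℝ) := by exact_mod_cast this
      rw [Nat.cast_add, Nat.cast_one] at h4
      rw [Nat.cast_pow, Nat.cast_ofNat] at h3
      linarith
    have h5 : ((S ∩ Icc 0 N).ncard : ℝ) ≤ N / 4 + ((16 ^ (2 * k + 1) : ℕ) : ℝ) := by
      refine le_trans ?_ (geo N (Nat.cast_nonneg N) _)
      refine le_trans ?_ (Finset.sum_le_sum fun n _ => h2 n)
      exact_mod_cast h1
    have h3 : (N : ℝ) + 1 = 16 ^ (2 * k + 1) * 16 := by
      rw [← pow_succ]; exact_mod_cast hN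
    push_cast at h5
    rw [div_le_iff₀ (by positivity)]
    linarith
  linarith

theorem lowerDens_empty : lowerDens ∅ = 0 := by simp [lowerDens]

/-- On a non-zero separable Banach space every frequently hypercyclic vector has an irregularly
visiting orbit; in particular every frequently hypercyclic operator has such a vector. -/
theorem result (K X : Type*) [NontriviallyNormedField K] [NormedAddCommGroup X] [NormedSpace K X]
    [CompleteSpace X] [TopologicalSpace.SeparableSpace X] [Nontrivial X] (T : X →L[K] X) :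
    (∀ x, FreqHC T x → Irregular T x) ∧
      ((∃ x, FreqHC T x) → ∃ x, FreqHC T x ∧ Irregular T x) := by
  have main : ∀ x, FreqHC T x → Irregular T x := by
    intro x hx
    have hit : ∀ n, (T ^ n) x = (T : X → X)^[n] x := fun n => by simp
    have hinj : Function.Injective fun n => (T : X → X)^[n] x := by
      by_contra hc
      have hfin : (range fun n => (T : X → X)^[n] x).Finite := by
        obtain ⟨a, b, hab, hne⟩ := Function.not_injective_iff.1 hc
        wlog hlt : a < b generalizing a b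
        · exact this b a hab.symm hne.symm (by omega)
        refine ((finite_Iio b).image fun n => (T : X → X)^[n] x).subset ?_
        rintro _ ⟨n, rfl⟩
        induction n using Nat.strong_induction_on with
        | _ n ih =>
          by_cases hn : n < b
          · exact ⟨n, hn, rfl⟩
          · have := ih (n - b + a) (by omega)
            have e : (T : X → X)^[n] x = (T : X → X)^[n - b + a] x := by
              rw [Function.iterate_add_apply, hab, ← Function.iterate_add_apply]
              congr 1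
              omega
            simpa only [e] using this
      haveI : Infinite X := Module.Free.infinite K X
      have h0 := hx _ hfin.isClosed.isOpen_compl hfin.infinite_compl.nonempty
      have : visits T x (range fun n => (T : X → X)^[n] x)ᶜ = ∅ := by
        ext n
        simp [visits]
      rw [this, lowerDens_empty] at h0
      exact lt_irrefl _ h0
    obtain ⟨U, h1, h2, h3⟩ := general T T.continuous x hinj
    refine ⟨U, h1, h2, ?_⟩
    simpa only [visits, hit] using h3
  exact ⟨main, fun ⟨x, hx⟩ => ⟨x, hx, main x hx⟩⟩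

end Pool.Agent.Results.MP_60e8bf_an.IrregularOrbits
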